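import Mathlib

/-!
Two non-isometric metric spaces whose Euclidean squares are isometric.

Let `w = (1 + i √31)/2`.  Then `|x + y w|² = x² + x y + 8 y²`.
`A = Z[1/3][w]`, a dense subring of the complex plane, and
`B = (1/√2) (2 Z[1/3] + w Z[1/3])`, a scaled ideal of it; both carry the metric of the plane.

* distance one occurs in `A` but not in `B`: otherwise `2 a² + a b + 4 b² = 9 ^ k` would be
  solvable in integers, which is excluded by descent modulo three;
* with `α = √2/3` and `β = (2 + w)/(3 √2)` one has `|α|² + |β|² = 1`, and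
  `(x, y) ↦ (α x + β y, α ȳ - β x̄)` is an isometry of `A × A` onto `B × B`.
-/

namespace Pool.Agent.Results.MP_1231ed_gt.SquareRoots

open Complex

/-- `w = (1 + i √31)/2`. -/
noncomputable def w : ℂ := ⟨1 / 2, Real.sqrt 31 / 2⟩

lemma s31 : Real.sqrt 31 * Real.sqrt 31 = 31 := Real.mul_self_sqrt (by norm_num)

lemma s2 : Real.sqrt 2 * Real.sqrt 2 = 2 := Real.mul_self_sqrt (by norm_num)

/-- real square root of two as a complex number -/
noncomputable def t : ℂ := ((Real.sqrt 2 : ℝ) : ℂ)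

lemma t_sq : t * t = 2 := by
  unfold t
  rw [← Complex.ofReal_mul, s2]
  norm_num

lemma t_ne : t ≠ 0 := by
  intro h
  have := t_sq
  rw [h] at this
  norm_num at this

lemma conj_t : (starRingEnd ℂ) t = t := Complex.conj_ofReal _

lemma conj_w : (starRingEnd ℂ) w = 1 - w := by
  apply Complex.ext
  · simp [w]; norm_num
  · simp [w]

lemma w_sq : w * w = w - 8 := by
  have h := s31
  apply Complex.ext
  · simp only [w, Complex.mul_re, Complex.sub_re]
    norm_num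
    nlinarith
  · simp only [w, Complex.mul_im, Complex.sub_im]
    norm_num
    ring

/-- `A = Z[1/3][w]`, as an additive subgroup of the complex plane. -/
noncomputable def A : AddSubgroup ℂ where
  carrier := {z | ∃ (k : ℕ) (a b : ℤ), (3 : ℂ) ^ k * z = a + b * w}
  zero_mem' := ⟨0, 0, 0, by simp⟩
  add_mem' := by
    rintro x y ⟨k, a, b, h⟩ ⟨l, c, d, h'⟩
    refine ⟨k + l, 3 ^ l * a + 3 ^ k * c, 3 ^ l * b + 3 ^ k * d, ?_⟩
    push_cast
    rw [pow_add]
    linear_combination (3 : ℂ) ^ l * h + (3 : ℂ) ^ k * h'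
  neg_mem' := by
    rintro x ⟨k, a, b, h⟩
    refine ⟨k, -a, -b, ?_⟩
    push_cast
    linear_combination -h

/-- `B = (1/√2) (2 Z[1/3] + w Z[1/3])`, as an additive subgroup of the complex plane. -/
noncomputable def B : AddSubgroup ℂ where
  carrier := {z | ∃ (k : ℕ) (a b : ℤ), (3 : ℂ) ^ k * (t * z) = 2 * a + b * w}
  zero_mem' := ⟨0, 0, 0, by simp⟩
  add_mem' := by
    rintro x y ⟨k, a, b, h⟩ ⟨l, c, d, h'⟩
    refine ⟨k + l, 3 ^ l * a + 3 ^ k * c, 3 ^ l * b + 3 ^ k * d, ?_⟩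
    push_cast
    rw [pow_add]
    linear_combination (3 : ℂ) ^ l * h + (3 : ℂ) ^ k * h'
  neg_mem' := by
    rintro x ⟨k, a, b, h⟩
    refine ⟨k, -a, -b, ?_⟩
    push_cast
    linear_combination -h

lemma mem_A {z : ℂ} : z ∈ A ↔ ∃ (k : ℕ) (a b : ℤ), (3 : ℂ) ^ k * z = a + b * w := Iff.rfl

lemma mem_B {z : ℂ} :
    z ∈ B ↔ ∃ (k : ℕ) (a b : ℤ), (3 : ℂ) ^ k * (t * z) = 2 * a + b * w := Iff.rfl

lemma conj_mem_A {z : ℂ} (hz : z ∈ A) : (starRingEnd ℂ) z ∈ A := by
  obtain ⟨k, a, b, h⟩ := hz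
  refine ⟨k, a + b, -b, ?_⟩
  have h2 := congrArg (starRingEnd ℂ) h
  simp only [map_mul, map_pow, map_add, map_intCast, conj_w] at h2
  rw [show (starRingEnd ℂ) (3 : ℂ) = 3 from Complex.conj_ofNat 3] at h2
  push_cast
  linear_combination h2

/-- `α = √2/3`. -/
noncomputable def al : ℂ := t / 3

/-- `β = (2 + w)/(3 √2)`. -/
noncomputable def be : ℂ := (2 + w) * t / 6

/-- the conjugate of `β` -/
noncomputable def be' : ℂ := (3 - w) * t / 6

lemma conj_al : (starRingEnd ℂ) al = al := by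
  unfold al
  rw [map_div₀, conj_t, show (starRingEnd ℂ) (3 : ℂ) = 3 from Complex.conj_ofNat 3]

lemma conj_be : (starRingEnd ℂ) be = be' := by
  unfold be be'
  rw [map_div₀, map_mul, map_add, conj_w, conj_t,
    show (starRingEnd ℂ) (6 : ℂ) = 6 from Complex.conj_ofNat 6,
    show (starRingEnd ℂ) (2 : ℂ) = 2 from Complex.conj_ofNat 2]
  ring

lemma conj_be' : (starRingEnd ℂ) be' = be := by
  rw [← conj_be, Complex.conj_conj]

lemma norm_one : al * al + be * be' = 1 := by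
  have h1 := t_sq
  have h2 := w_sq
  unfold al be be'
  have : t / 3 * (t / 3) + (2 + w) * t / 6 * ((3 - w) * t / 6)
      = (t * t) * (1 / 9 + (6 + w - w * w) / 36) := by ring
  rw [this, h1, h2]
  ring

lemma al_mul {z : ℂ} (hz : z ∈ A) : al * z ∈ B := by
  obtain ⟨k, a, b, h⟩ := hz
  refine ⟨k + 1, a, 2 * b, ?_⟩
  unfold al
  push_cast
  rw [pow_succ]
  have h1 := t_sq
  have : (3 : ℂ) ^ k * 3 * (t * (t / 3 * z)) = (t * t) * (3 ^ k * z) := by ring
  rw [this, h1, h]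
  ring

lemma be_mul {z : ℂ} (hz : z ∈ A) : be * z ∈ B := by
  obtain ⟨k, a, b, h⟩ := hz
  -- t * be = (2 + w)/3 ; (2+w)(a + b w) = 2a + (a + 2b) w + b (w - 8) = 2(a - 4b) + (a + 3b) w
  refine ⟨k + 1, a - 4 * b, a + 3 * b, ?_⟩
  unfold be
  push_cast
  rw [pow_succ]
  have h1 := t_sq
  have h2 := w_sq
  have : (3 : ℂ) ^ k * 3 * (t * ((2 + w) * t / 6 * z)) = (t * t) * (2 + w) / 2 * (3 ^ k * z) := by
    ring
  rw [this, h1, h]
  linear_combination (b : ℂ) * h2

lemma al_mul' {z : ℂ} (hz : z ∈ B) : al * z ∈ A := by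
  obtain ⟨k, a, b, h⟩ := hz
  refine ⟨k + 1, 2 * a, b, ?_⟩
  unfold al
  push_cast
  rw [pow_succ]
  have : (3 : ℂ) ^ k * 3 * (t / 3 * z) = 3 ^ k * (t * z) := by ring
  rw [this, h]

lemma be'_mul' {z : ℂ} (hz : z ∈ B) : be' * z ∈ A := by
  obtain ⟨k, a, b, h⟩ := hz
  -- (3 - w)(2 a + b w) / 2 = (6a + (3b - 2a) w - b (w - 8))/2 = 3a + 4b + (b - a) w
  refine ⟨k + 1, 3 * a + 4 * b, b - a, ?_⟩
  unfold be'
  push_cast
  rw [pow_succ]
  have h2 := w_sq
  have : (3 : ℂ) ^ k * 3 * ((3 - w) * t / 6 * z) = (3 - w) / 2 * (3 ^ k * (t * z)) := by ring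
  rw [this, h]
  linear_combination (-(b : ℂ) / 2) * h2

/-- `conj z ∈ B-bar` times `β` lies in `A`. -/
lemma be_mul_conj {z : ℂ} (hz : z ∈ B) : be * (starRingEnd ℂ) z ∈ A := by
  have h := conj_mem_A (be'_mul' hz)
  rwa [map_mul, conj_be'] at h

lemma al_mul_conj {z : ℂ} (hz : z ∈ B) : al * (starRingEnd ℂ) z ∈ A := by
  have h := conj_mem_A (al_mul' hz)
  rwa [map_mul, conj_al] at h

/-- The isometry `A × A → B × B`. -/
noncomputable def Phi : (A × A) ≃ (B × B) where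
  toFun p := (⟨al * p.1 + be * p.2, B.add_mem (al_mul p.1.2) (be_mul p.2.2)⟩,
    ⟨al * (starRingEnd ℂ) p.2 - be * (starRingEnd ℂ) p.1,
      B.sub_mem (al_mul (conj_mem_A p.2.2)) (be_mul (conj_mem_A p.1.2))⟩)
  invFun q := (⟨al * q.1 - be * (starRingEnd ℂ) q.2,
      A.sub_mem (al_mul' q.1.2) (be_mul_conj q.2.2)⟩,
    ⟨be' * q.1 + al * (starRingEnd ℂ) q.2, A.add_mem (be'_mul' q.1.2) (al_mul_conj q.2.2)⟩)
  left_inv := by
    rintro ⟨⟨x, hx⟩, ⟨y, hy⟩⟩
    have h := norm_one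
    apply Prod.ext
    · apply Subtype.ext
      simp only [map_sub, map_mul, conj_al, conj_be, Complex.conj_conj]
      linear_combination x * h
    · apply Subtype.ext
      simp only [map_sub, map_mul, conj_al, conj_be, Complex.conj_conj]
      linear_combination y * h
  right_inv := by
    rintro ⟨⟨x, hx⟩, ⟨y, hy⟩⟩
    have h := norm_one
    apply Prod.ext
    · apply Subtype.ext
      simp only
      linear_combination x * h
    · apply Subtype.ext
      simp only [map_sub, map_add, map_mul, conj_al, conj_be, conj_be', Complex.conj_conj]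
      linear_combination y * h

lemma key (x y : ℂ) :
    ‖al * x + be * y‖ ^ 2 + ‖al * (starRingEnd ℂ) y - be * (starRingEnd ℂ) x‖ ^ 2
      = ‖x‖ ^ 2 + ‖y‖ ^ 2 := by
  have h : ((‖al * x + be * y‖ ^ 2 + ‖al * (starRingEnd ℂ) y - be * (starRingEnd ℂ) x‖ ^ 2 : ℝ) : ℂ)
      = ((‖x‖ ^ 2 + ‖y‖ ^ 2 : ℝ) : ℂ) := by
    push_cast
    rw [← Complex.mul_conj', ← Complex.mul_conj', ← Complex.mul_conj', ← Complex.mul_conj']
    simp only [map_add, map_sub, map_mul, conj_al, conj_be, Complex.conj_conj]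
    linear_combination (x * (starRingEnd ℂ) x + y * (starRingEnd ℂ) y) * norm_one
  exact_mod_cast h

lemma descent (k : ℕ) : ∀ a b : ℤ, 2 * a ^ 2 + a * b + 4 * b ^ 2 ≠ 9 ^ k := by
  induction k with
  | zero =>
    intro a b h
    have h1 : (4 * a + b) ^ 2 + 31 * b ^ 2 = 8 := by
      have : (4 * a + b) ^ 2 + 31 * b ^ 2 = 8 * (2 * a ^ 2 + a * b + 4 * b ^ 2) := by ring
      rw [this, h]; norm_num
    have hb : b = 0 := by
      by_contra hb
      have : 1 ≤ b ^ 2 := by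
        have := pow_pos (abs_pos.mpr hb) 2
        rw [sq_abs] at this
        linarith
      nlinarith [sq_nonneg (4 * a + b)]
    rw [hb] at h
    have : 2 * a ^ 2 = 1 := by
      have := h
      simp at this
      linarith
    omega
  | succ k ih =>
    intro a b h
    have h3 : (2 * a ^ 2 + a * b + 4 * b ^ 2) % 3 = 0 := by
      rw [h, pow_succ]
      omega
    have ha : a % 3 = 0 ∧ b % 3 = 0 := by
      have h1 : a % 3 = 0 ∨ a % 3 = 1 ∨ a % 3 = 2 := by omega
      have h2 : b % 3 = 0 ∨ b % 3 = 1 ∨ b % 3 = 2 := by omega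
      rcases h1 with h1 | h1 | h1 <;> rcases h2 with h2 | h2 | h2 <;>
        first
        | exact ⟨h1, h2⟩
        | (exfalso
           revert h3
           simp [Int.add_emod, Int.mul_emod, pow_two, h1, h2])
    obtain ⟨a', rfl⟩ : (3 : ℤ) ∣ a := Int.dvd_of_emod_eq_zero ha.1
    obtain ⟨b', rfl⟩ : (3 : ℤ) ∣ b := Int.dvd_of_emod_eq_zero ha.2
    apply ih a' b'
    rw [pow_succ (9 : ℤ)] at h
    linarith

/-- no element of `B` has modulus one. -/
lemma no_one {z : ℂ} (hz : z ∈ B) : ‖z‖ ≠ 1 := by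
  intro hn
  obtain ⟨k, a, b, h⟩ := hz
  apply descent k a b
  have h2 := congrArg (starRingEnd ℂ) h
  simp only [map_mul, map_pow, map_add, map_intCast, conj_w, conj_t] at h2
  rw [show (starRingEnd ℂ) (3 : ℂ) = 3 from Complex.conj_ofNat 3,
    show (starRingEnd ℂ) (2 : ℂ) = 2 from Complex.conj_ofNat 2] at h2
  have hz : z * (starRingEnd ℂ) z = 1 := by
    rw [Complex.mul_conj', hn]; norm_num
  have h3 : ((3 : ℂ) ^ k * (t * z)) * ((3 : ℂ) ^ k * (t * (starRingEnd ℂ) z))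
      = (2 * a + b * w) * (2 * a + b * (1 - w)) := by rw [h, h2]
  have h4 : ((3 : ℂ) ^ k * (t * z)) * ((3 : ℂ) ^ k * (t * (starRingEnd ℂ) z))
      = (9 : ℂ) ^ k * 2 := by
    have : ((3 : ℂ) ^ k * (t * z)) * ((3 : ℂ) ^ k * (t * (starRingEnd ℂ) z))
      = ((3 : ℂ) ^ k * (3 : ℂ) ^ k) * (t * t) * (z * (starRingEnd ℂ) z) := by ring
    rw [this, hz, t_sq, ← mul_pow]
    norm_num
  rw [h4] at h3
  have h5 : (2 * (a : ℂ) + b * w) * (2 * a + b * (1 - w))
      = 2 * (2 * a ^ 2 + a * b + 4 * b ^ 2) := by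
    linear_combination (-(b : ℂ) ^ 2) * w_sq
  rw [h5] at h3
  have h6 : (2 * (a : ℂ) ^ 2 + a * b + 4 * b ^ 2) = 9 ^ k := by
    linear_combination (-(1 : ℂ) / 2) * h3
  exact_mod_cast h6

/-- There are metric spaces `A` and `B` (in fact additive subgroups of the Euclidean plane,
with the induced metric) which are not isometric, while `A × A` and `B × B`, with the Euclidean
product metrics, are isometric. -/
theorem result : ∃ A B : AddSubgroup ℂ,
    IsEmpty (A ≃ᵢ B) ∧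
    ∃ φ : (A × A) ≃ (B × B), ∀ p q : A × A,
      Real.sqrt (dist (φ p).1 (φ q).1 ^ 2 + dist (φ p).2 (φ q).2 ^ 2) =
        Real.sqrt (dist p.1 q.1 ^ 2 + dist p.2 q.2 ^ 2) := by
  refine ⟨A, B, ⟨fun e => ?_⟩, Phi, ?_⟩
  · have h1 : (1 : ℂ) ∈ A := ⟨0, 1, 0, by simp⟩
    have h := e.dist_eq ⟨1, h1⟩ 0
    rw [Subtype.dist_eq, Subtype.dist_eq, dist_eq_norm, dist_eq_norm] at h
    refine no_one (B.sub_mem (e ⟨1, h1⟩).2 (e 0).2) ?_
    rw [h]
    simp
  · rintro ⟨x, y⟩ ⟨x', y'⟩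
    congr 1
    have hd : ∀ (S : AddSubgroup ℂ) (u v : S), dist u v = ‖(u : ℂ) - v‖ := by
      intro S u v
      rw [Subtype.dist_eq, dist_eq_norm]
    simp only [hd]
    have := key ((x : ℂ) - x') ((y : ℂ) - y')
    rw [← this]
    congr 2
    · simp only [Phi, Equiv.coe_fn_mk]
      congr 1
      ring
    · simp only [Phi, Equiv.coe_fn_mk]
      congr 1
      rw [map_sub, map_sub]
      ring

end Pool.Agent.Results.MP_1231ed_gt.SquareRoots
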